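import Pool.Agent.MDS81.Cobip

set_option autoImplicit false

namespace Pool.Agent.Results.MP_5e73fb_co.Cobipartite

open Finset Pool.Agent.MDS81

/-- If the vertex set of a graph on `n` vertices is the union of a clique `X` and a clique on the
complement of `X`, then the graph has at most `2 * 1.354 ^ n + n ^ 2 / 4` minimal dominating sets. -/
theorem result (V : Type) [Fintype V] (G : SimpleGraph V) (X : Finset V)
    (hX : ∀ u ∈ X, ∀ v ∈ X, u ≠ v → G.Adj u v) (hY : ∀ u ∉ X, ∀ v ∉ X, u ≠ v → G.Adj u v) :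
    ((Set.ncard {D : Finset V |
        (∀ v : V, v ∉ D → ∃ u ∈ D, G.Adj v u) ∧
        ∀ D' : Finset V, D' ⊂ D → ¬ (∀ v : V, v ∉ D' → ∃ u ∈ D', G.Adj v u)} : ℕ) : ℝ)
      ≤ 2 * (1.354 : ℝ) ^ Fintype.card V + (Fintype.card V : ℝ) ^ 2 / 4 := by
  classical
  rw [mds_ncard]
  have h := cobip_bound G X hX hY
  convert h using 2

end Pool.Agent.Results.MP_5e73fb_co.Cobipartite
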