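import Pool.Agent.MDS81.WGen
import Pool.Agent.MDS81.Graph

set_option autoImplicit false

namespace Pool.Agent.Results.MP_5e73fb_co.GeneralBound

open Finset Pool.Agent.MDS81

/-- Every graph on `n` vertices has at most `1.6915 ^ n` minimal dominating sets. -/
theorem result (V : Type) [Fintype V] (G : SimpleGraph V) :
    ((Set.ncard {D : Finset V |
        (∀ v : V, v ∉ D → ∃ u ∈ D, G.Adj v u) ∧
        ∀ D' : Finset V, D' ⊂ D → ¬ (∀ v : V, v ∉ D' → ∃ u ∈ D', G.Adj v u)} : ℕ) : ℝ)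
      ≤ (1.6915 : ℝ) ^ Fintype.card V := by
  rw [mds_ncard]
  refine (cover_le chk_g (nbr G) Finset.univ Finset.univ).trans ?_
  rw [Finset.card_univ]
  have hx : Real.exp (lg xg 6) = (xg 6)⁻¹ := by
    have h := chk_g.eA 6
    rw [← h, Real.exp_neg, inv_inv]
  have hy : Real.exp (lg yg 5) = (yg 5)⁻¹ := by
    have h := chk_g.eB 5
    rw [← h, Real.exp_neg, inv_inv]
  have e : lg xg 6 * (Fintype.card V : ℝ) + lg yg 5 * (Fintype.card V : ℝ)
      = (Fintype.card V : ℝ) * (lg xg 6 + lg yg 5) := by ring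
  rw [e, Real.exp_nat_mul, Real.exp_add, hx, hy]
  apply pow_le_pow_left₀
  · rw [xg6, yg5]; norm_num
  · rw [xg6, yg5]; norm_num

end Pool.Agent.Results.MP_5e73fb_co.GeneralBound
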