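import Pool.Agent.MDS81.Weights
import Pool.Agent.MDS81.Graph

set_option autoImplicit false

namespace Pool.Agent.Results.MP_5e73fb_co.NearRegular

open Finset Pool.Agent.MDS81

/-- The inverse degree sum of the closed neighbourhood of `z`: the sum of `1 / (deg u + 1)` over
`u = z` and all neighbours `u` of `z`. (Its average over all vertices is exactly `1`; it is `1` at
every vertex of a regular graph, and at most `3` everywhere if `deg z ≤ 3 * deg u` for adjacent
`z`, `u`.) -/
noncomputable def invDeg {V : Type} [Fintype V] [DecidableEq V] (G : SimpleGraph V)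
    [DecidableRel G.Adj] (z : V) : ℝ :=
  ∑ u ∈ insert z (G.neighborFinset z), 1 / ((G.degree u : ℝ) + 1)

lemma dg_eq {V : Type} [Fintype V] [DecidableEq V] (G : SimpleGraph V) [DecidableRel G.Adj] (v : V) :
    dg (nbr G) v = G.degree v + 1 := by
  unfold dg
  rw [← SimpleGraph.card_neighborFinset_eq_degree, ← Finset.card_insert_of_notMem
    (s := G.neighborFinset v) (a := v) (by simp)]
  congr 1
  ext w
  simp only [Finset.mem_filter, Finset.mem_univ, true_and, Finset.mem_insert,
    SimpleGraph.mem_neighborFinset]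
  constructor
  · rintro (h | h)
    · exact Or.inl h
    · exact Or.inr h.symm
  · rintro (h | h)
    · exact Or.inl h
    · exact Or.inr h.symm

lemma omega_eq {V : Type} [Fintype V] [DecidableEq V] (G : SimpleGraph V) [DecidableRel G.Adj] (z : V) :
    omega (nbr G) z = invDeg G z := by
  unfold omega invDeg
  apply Finset.sum_congr
  · ext w
    simp only [Finset.mem_filter, Finset.mem_univ, true_and, Finset.mem_insert,
      SimpleGraph.mem_neighborFinset]
    constructor
    · rintro (h | h)
      · exact Or.inl h.symm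
      · exact Or.inr h
    · rintro (h | h)
      · exact Or.inl h.symm
      · exact Or.inr h
  · intro u _
    rw [dg_eq]; push_cast; rfl

/-- There is `d` such that the conjectured bound `15 ^ (n / 6)` holds for every graph on `n` vertices
in which the number of vertices of degree less than `d`, plus the sum over all vertices of the excess
of the inverse degree sum over `3`, is at most `n / 20`. -/
theorem result :
    ∃ d : ℕ, ∀ (V : Type) [Fintype V] [DecidableEq V] (G : SimpleGraph V) [DecidableRel G.Adj],
      ((Finset.univ.filter (fun v => G.degree v < d)).card : ℝ)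
          + ∑ z : V, max 0 (invDeg G z - 3) ≤ (Fintype.card V : ℝ) / 20 →
      ((Set.ncard {D : Finset V |
          (∀ v : V, v ∉ D → ∃ u ∈ D, G.Adj v u) ∧
          ∀ D' : Finset V, D' ⊂ D → ¬ (∀ v : V, v ∉ D' → ∃ u ∈ D', G.Adj v u)} : ℕ) : ℝ)
        ≤ (15 : ℝ) ^ ((Fintype.card V : ℝ) / 6) := by
  obtain ⟨d, hd⟩ := main_bound wt0 (3 * b0) a0_le (1 / 1000) (by norm_num)
  refine ⟨d, ?_⟩
  intro V _ _ G _ hG
  rw [mds_ncard]
  refine (hd V (nbr G)).trans ?_
  rw [Real.rpow_def_of_pos (by norm_num : (0 : ℝ) < 15)]
  apply Real.exp_le_exp.mpr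
  have h1 : ((low (nbr G) d).card : ℝ) ≤ ((Finset.univ.filter (fun v => G.degree v < d)).card : ℝ) := by
    apply Nat.cast_le.mpr
    apply Finset.card_le_card
    intro v hv
    have hv' := (Finset.mem_filter.mp hv).2
    rw [dg_eq] at hv'
    exact Finset.mem_filter.mpr ⟨Finset.mem_univ _, by omega⟩
  have h2 : ∑ z : V, max 0 (b0 * omega (nbr G) z - 3 * b0) = b0 * ∑ z : V, max 0 (invDeg G z - 3) := by
    rw [Finset.mul_sum]
    apply Finset.sum_congr rfl
    intro z _
    rw [omega_eq, show b0 * invDeg G z - 3 * b0 = b0 * (invDeg G z - 3) by ring,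
      mul_max_of_nonneg _ _ b0_pos.le, mul_zero]
  rw [h2]
  have h3 : b0 * ((low (nbr G) d).card : ℝ) + b0 * ∑ z : V, max 0 (invDeg G z - 3)
      ≤ b0 * ((Fintype.card V : ℝ) / 20) := by
    rw [← mul_add]
    apply mul_le_mul_of_nonneg_left _ b0_pos.le
    linarith
  have h4 := final_num
  have hn : (0 : ℝ) ≤ (Fintype.card V : ℝ) := Nat.cast_nonneg _
  have h5 := mul_le_mul_of_nonneg_right h4 hn
  nlinarith

end Pool.Agent.Results.MP_5e73fb_co.NearRegular
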