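import Pool.Agent.MDS81.IndepFinal

set_option autoImplicit false

namespace Pool.Agent.Results.MP_5e73fb_co.SmallIndependence

open Finset Pool.Agent.MDS81

/-- Every graph on `n` vertices whose independence number is at most `n / 49` has at most
`15 ^ (n / 6)` minimal dominating sets. -/
theorem result (V : Type) [Fintype V] (G : SimpleGraph V) (h : 49 * G.indepNum ≤ Fintype.card V) :
    ((Set.ncard {D : Finset V |
        (∀ v : V, v ∉ D → ∃ u ∈ D, G.Adj v u) ∧
        ∀ D' : Finset V, D' ⊂ D → ¬ (∀ v : V, v ∉ D' → ∃ u ∈ D', G.Adj v u)} : ℕ) : ℝ)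
      ≤ (15 : ℝ) ^ ((Fintype.card V : ℝ) / 6) := by
  rw [mds_ncard]
  exact indep_bound G h

end Pool.Agent.Results.MP_5e73fb_co.SmallIndependence
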